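import Mathlib
import Pool.Agent.X19.SP.F

open Set Filter Topology MeasureTheory

namespace Pool.Agent.Results.MP_7e532d_an.SpiralBoxDimension

/-- `(x, y)` solves, at time `t`, the system of the problem with parameters `m, n, k, σ`. -/
def Solves (m n k : ℕ) (σ : ℝ) (x y : ℝ → ℝ) (t : ℝ) : Prop :=
  HasDerivAt x (-(n * y t ^ (2 * n - 1)) +
    σ * n * x t ^ m * y t ^ (n - 1) * (x t ^ (2 * m) + y t ^ (2 * n)) ^ k) t ∧
  HasDerivAt y (m * x t ^ (2 * m - 1) +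
    σ * m * x t ^ (m - 1) * y t ^ n * (x t ^ (2 * m) + y t ^ (2 * n)) ^ k) t

/-- `S` is a spiral trajectory near the origin: `σ = -1` and `S` is the portion inside a
neighbourhood `W` of the origin of the set of points `(x t, y t)`, `t ≥ t₀`, where `(x, y)` is a
solution for `t ≥ t₀` that avoids the origin and tends to the origin as `t → ∞`; or `σ = 1` and
the same holds with `t ≤ t₀` and `t → -∞`. -/
def IsSpiral (m n k : ℕ) (σ : ℝ) (S : Set (ℝ × ℝ)) : Prop :=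
  ∃ (x y : ℝ → ℝ) (t₀ : ℝ) (W : Set (ℝ × ℝ)), W ∈ 𝓝 ((0, 0) : ℝ × ℝ) ∧
    ((σ = -1 ∧ (∀ t ≥ t₀, Solves m n k σ x y t ∧ (x t, y t) ≠ (0, 0)) ∧
        Tendsto (fun t => (x t, y t)) atTop (𝓝 (0, 0)) ∧
        S = W ∩ (fun t => (x t, y t)) '' Ici t₀) ∨
      (σ = 1 ∧ (∀ t ≤ t₀, Solves m n k σ x y t ∧ (x t, y t) ≠ (0, 0)) ∧
        Tendsto (fun t => (x t, y t)) atBot (𝓝 (0, 0)) ∧
        S = W ∩ (fun t => (x t, y t)) '' Iic t₀))

/-- `S_ε`: the set of points of the plane at Euclidean distance at most `ε` from `S`. -/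
def thicken (S : Set (ℝ × ℝ)) (ε : ℝ) : Set (ℝ × ℝ) :=
  {p | ∀ δ > 0, ∃ q ∈ S, Real.sqrt ((p.1 - q.1) ^ 2 + (p.2 - q.2) ^ 2) ≤ ε + δ}

/-- the area of `S_ε`. -/
noncomputable def area (S : Set (ℝ × ℝ)) (ε : ℝ) : ℝ := (volume (thicken S ε)).toReal

/-- upper Minkowski dimension. -/
noncomputable def upperDim (S : Set (ℝ × ℝ)) : ℝ :=
  2 - liminf (fun ε => Real.log (area S ε) / Real.log ε) (𝓝[>] 0)

/-- lower Minkowski dimension. -/
noncomputable def lowerDim (S : Set (ℝ × ℝ)) : ℝ :=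
  2 - limsup (fun ε => Real.log (area S ε) / Real.log ε) (𝓝[>] 0)

/-- For odd `m > n`, `k ≥ 1` and `σ = ±1`, every spiral trajectory `S` near the origin has upper
and lower Minkowski dimension `2 - (1 + n/m) / (1 + 2kn)`; more precisely
`2 - log |S_ε| / log ε` tends to this number `d` and `c ε^(2-d) ≤ |S_ε| ≤ C ε^(2-d)` for small
`ε > 0`, with constants `c, C > 0` (Minkowski nondegeneracy). -/
theorem result (m n k : ℕ) (hm : Odd m) (hn : Odd n) (hnm : n < m) (hk : 1 ≤ k) (σ : ℝ)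
    (S : Set (ℝ × ℝ)) (hS : IsSpiral m n k σ S) :
    upperDim S = 2 - (1 + (n:ℝ) / m) / (1 + 2 * k * n) ∧
    lowerDim S = 2 - (1 + (n:ℝ) / m) / (1 + 2 * k * n) ∧
    Tendsto (fun ε => 2 - Real.log (area S ε) / Real.log ε) (𝓝[>] 0)
      (𝓝 (2 - (1 + (n:ℝ) / m) / (1 + 2 * k * n))) ∧
    ∃ c C : ℝ, 0 < c ∧ 0 < C ∧ ∀ᶠ ε in 𝓝[>] (0:ℝ),
      volume (thicken S ε) ≠ ⊤ ∧
      c * ε ^ ((1 + (n:ℝ) / m) / (1 + 2 * k * n)) ≤ area S ε ∧
      area S ε ≤ C * ε ^ ((1 + (n:ℝ) / m) / (1 + 2 * k * n)) := by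
  have hb : ∃ c C : ℝ, 0 < c ∧ 0 < C ∧ ∀ᶠ ε in 𝓝[>] (0:ℝ),
      ENNReal.ofReal (c * ε ^ ((1 + (n:ℝ) / m) / (1 + 2 * k * n))) ≤ volume (thicken S ε) ∧
      volume (thicken S ε) ≤ ENNReal.ofReal (C * ε ^ ((1 + (n:ℝ) / m) / (1 + 2 * k * n))) := by
    obtain ⟨x, y, t₀, W, hW, h⟩ := hS
    rcases h with ⟨hσ, h1, h2, h3⟩ | ⟨hσ, h1, h2, h3⟩
    · subst hσ
      have e : S = {p | p ∈ W ∧ ∃ t, 0 ≤ -(-1:ℝ) * (t - t₀) ∧ p = (x t, y t)} := by
        rw [h3]; ext p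
        constructor
        · rintro ⟨hp, t, ht, rfl⟩
          exact ⟨hp, t, by have : t₀ ≤ t := ht; linarith, rfl⟩
        · rintro ⟨hp, t, ht, rfl⟩
          exact ⟨hp, t, by show t₀ ≤ t; linarith, rfl⟩
      have h4 := X19.SP.main_bounds (σ := -1) hm hn hnm hk (Or.inr rfl) (x := x) (y := y)
        (t₀ := t₀) (fun t ht => (h1 t (by show t₀ ≤ t; linarith)).1)
        (fun t ht => (h1 t (by show t₀ ≤ t; linarith)).2) (by
          refine h2.comp ?_
          have : (fun s : ℝ => t₀ - -1 * s) = fun s => s + t₀ := by funext s; ring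
          rw [this]
          exact tendsto_atTop_add_const_right _ _ tendsto_id) hW
      rw [← e] at h4
      exact h4
    · subst hσ
      have e : S = {p | p ∈ W ∧ ∃ t, 0 ≤ -(1:ℝ) * (t - t₀) ∧ p = (x t, y t)} := by
        rw [h3]; ext p
        constructor
        · rintro ⟨hp, t, ht, rfl⟩
          exact ⟨hp, t, by have : t ≤ t₀ := ht; linarith, rfl⟩
        · rintro ⟨hp, t, ht, rfl⟩
          exact ⟨hp, t, by show t ≤ t₀; linarith, rfl⟩
      have h4 := X19.SP.main_bounds (σ := 1) hm hn hnm hk (Or.inl rfl) (x := x) (y := y)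
        (t₀ := t₀) (fun t ht => (h1 t (by linarith)).1)
        (fun t ht => (h1 t (by linarith)).2) (by
          refine h2.comp ?_
          have : (fun s : ℝ => t₀ - 1 * s) = fun s => t₀ + -s := by funext s; ring
          rw [this]
          exact tendsto_atBot_add_const_left _ _ tendsto_neg_atTop_atBot) hW
      rw [← e] at h4
      exact h4
  obtain ⟨c, C, hc, hC, hcC⟩ := hb
  have hd := X19.SP.dim_of_bounds (V := fun ε => volume (thicken S ε)) hc hC hcC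
  have hd2 : Tendsto (fun ε => Real.log (area S ε) / Real.log ε) (𝓝[>] 0)
      (𝓝 ((1 + (n:ℝ) / m) / (1 + 2 * k * n))) := by
    have := hd.const_sub 2
    simp only [sub_sub_cancel] at this
    exact this
  refine ⟨?_, ?_, hd, c, C, hc, hC, ?_⟩
  · unfold upperDim; rw [hd2.liminf_eq]
  · unfold lowerDim; rw [hd2.limsup_eq]
  · filter_upwards [hcC, self_mem_nhdsWithin] with ε h hε
    have hε0 : (0:ℝ) < ε := hε
    have hVt : volume (thicken S ε) ≠ ⊤ := ne_top_of_le_ne_top ENNReal.ofReal_ne_top h.2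
    exact ⟨hVt, (ENNReal.ofReal_le_iff_le_toReal hVt).1 h.1,
      ENNReal.toReal_le_of_le_ofReal (by positivity) h.2⟩

end Pool.Agent.Results.MP_7e532d_an.SpiralBoxDimension
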